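import Pool.Agent.Helper41.JT.Out

/-!
# The join theorem for all atomless laws (MP_13b103_pr): definitions

Plan (notes 3136, 3142 (I)): for `x`, `y` and a word `w` the event `E` = (some ray from `x` begins
with `w`, and no ray from `x` which begins with `w` has a common tail with a ray from `y`) is null.
Only uniqueness of geodesics and a Peierls estimate are used (no moments).
-/

set_option autoImplicit false

namespace Pool.Agent.Helper27.PG

open Pool.Agent.Helper79.GR Pool.Agent.Helper41.JT MeasureTheory ProbabilityTheory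

/-- independent weights with one atomless law on `[0, ∞)` -/
structure EnvA {Ω : Type*} [MeasurableSpace Ω] {d : ℕ} (P : Measure Ω) (X : Edge d → Ω → ℝ)
    (ν : Measure ℝ) : Prop where
  prob : IsProbabilityMeasure P
  meas : ∀ e, Measurable (X e)
  indep : iIndepFun X P
  law : ∀ e, P.map (X e) = ν
  nonneg : ν (Set.Iio 0) = 0
  atom : ∀ x, ν {x} = 0

variable {d : ℕ}

/-- geodesics are unique -/
def Uq (c : Edge d → ℝ) : Prop :=
  ∀ (x : V d) (w w' : List (St d)), Geo c x w → Geo c x w' → pos x w = pos x w' → w = w'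

/-- the increasing function `T(x,·) - T(y,·)` along rays from `x` is `dl`; `T(y,v) - T(x,v)` -/
noncomputable def be (c : Edge d → ℝ) (x y v : V d) : ℝ := T c y v - T c x v

/-- some ray from `x` begins with `u` (all finite lengths) -/
def Liv (c : Edge d → ℝ) (x : V d) (u : List (St d)) : Prop :=
  ∀ n : ℕ, ∃ z : List (St d), z.length = n ∧ Geo c x (u ++ z)

/-- after `u` from `x` and `v` from `y` there is one common ray -/
def Coal (c : Edge d → ℝ) (x y : V d) (u v : List (St d)) : Prop :=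
  pos x u = pos y v ∧ ∀ n : ℕ, ∃ z : List (St d), z.length = n ∧ Geo c x (u ++ z) ∧
    Geo c y (v ++ z)

/-- the same with rays which avoid the edge `e` -/
def CoalA (c : Edge d → ℝ) (x y : V d) (e : Edge d) (u v : List (St d)) : Prop :=
  pos x u = pos y v ∧ ∀ n : ℕ, ∃ z : List (St d), z.length = n ∧
    (Geo c x (u ++ z) ∧ e ∉ eds x (u ++ z)) ∧ (Geo c y (v ++ z) ∧ e ∉ eds y (v ++ z))

/-- the bad event: rays from `x` begin with `w`, but none of them is joined by `y` -/
def Ew (x y : V d) (w : List (St d)) (c : Edge d → ℝ) : Prop :=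
  Liv c x w ∧ ∀ u v, w <+: u → ¬ Coal c x y u v

/-- the event `A(k, f)`: `n` = `p_k`, `m` = `p_(k-1)`, `H` = `H_k`, `H₀` = `H_(k-1)`, and the directed
edge `f = (p, s)` -/
def Aw (x y : V d) (w : List (St d)) (θ η : ℝ) (m n : ℕ) (H₀ H : ℝ) (p : V d) (s : St d)
    (c : Edge d → ℝ) : Prop :=
  θ ≤ c (ed p s) ∧ (∀ u v, w <+: u → ¬ Coal c x y u v) ∧
  ∃ u : List (St d), u.length = n ∧ w <+: u ∧ pos x u = p ∧
    be c x y p < be c x y (pos x (u.take m)) ∧ T c x p ≤ H ∧ 2 * T c x y + H₀ < T c x p ∧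
    ∀ l : ℕ, ∃ z : List (St d), z.length = l ∧ Geo c x (u ++ s :: z) ∧
      be c x y p - be c x y (pos x (u ++ s :: z)) ≤ η

/-- the event `G(k, f)` -/
def Gw (x y : V d) (w : List (St d)) (m n : ℕ) (H₀ H : ℝ) (p : V d) (s : St d)
    (c : Edge d → ℝ) : Prop :=
  (∀ u v, w <+: u → ¬ CoalA c x y (ed p s) u v) ∧
  ∃ u v : List (St d), u.length = n ∧ w <+: u ∧ pos x u = p ∧ pos y v = p ∧
    be c x y p < be c x y (pos x (u.take m)) ∧ T c x p ≤ H ∧ 2 * T c x y + H₀ < T c x p ∧
    ∀ l : ℕ, ∃ z : List (St d), z.length = l ∧ Geo c x (u ++ s :: z) ∧ Geo c y (v ++ s :: z)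

end Pool.Agent.Helper27.PG
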