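import Pool.Agent.Helper27.PG.Defs

/-!
# The join theorem for all laws: the events `Gw` are pairwise disjoint
-/

set_option autoImplicit false

namespace Pool.Agent.Helper27.PG

open Pool.Agent.Helper79.GR Pool.Agent.Helper41.JT MeasureTheory ProbabilityTheory

variable {d : ℕ} {c : Edge d → ℝ}

theorem eds_append (x : V d) (u v : List (St d)) : eds x (u ++ v) = eds x u ++ eds (pos x u) v := by
  induction u generalizing x with
  | nil => rfl
  | cons s u ih => simp [eds, pos, ih]

theorem snoc_cost (h : Ok c) {x p : V d} {u : List (St d)} {s : St d} (hu : pos x u = p)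
    (hg : Geo c x (u ++ [s])) : T c x (p + sv s) = T c x p + c (ed p s) := by
  have hgu : Geo c x u := by
    have := hg.take u.length
    rwa [List.take_left] at this
  have h1 := (h.geo_iff x _).1 hg
  have h2 := (h.geo_iff x _).1 hgu
  rw [pos_append, cost_append, hu, h2, hu] at h1
  have e1 : pos p [s] = p + sv s := rfl
  have e2 : cost c p [s] = c (ed p s) := by simp [cost]
  rw [e1, e2] at h1
  exact h1.symm

/-- an edge which is used by the geodesic `u ++ [s]` is used by all geodesics in the same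
direction -/
theorem dir (h : Ok c) (hq : Uq c) {x p : V d} {u W : List (St d)} {s : St d} (hu : pos x u = p)
    (hg : Geo c x (u ++ [s])) (hW : Geo c x W) (he : ed p s ∈ eds x W) :
    ∃ b, W = u ++ s :: b := by
  obtain ⟨a, b, s', hab, hed⟩ := mem_eds_split he
  have hga : Geo c x (a ++ [s']) := by
    have h1 := hW.take (a ++ [s']).length
    rw [hab, show a ++ s' :: b = (a ++ [s']) ++ b by simp, List.take_left] at h1
    exact h1
  have h3 := snoc_cost h hu hg
  have h4 := snoc_cost h (rfl : pos x a = pos x a) hga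
  have hpos := h.ps (ed p s)
  rcases ed_eq hed with ⟨h1, h2⟩ | ⟨h1, h2⟩
  · have h5 : a ++ [s'] = u ++ [s] := by
      refine hq x _ _ hga hg ?_
      rw [pos_append, pos_append, hu]
      exact h2
    obtain ⟨rfl, h6⟩ := List.append_inj' h5 rfl
    obtain rfl : s' = s := by simpa using h6
    exact ⟨b, hab⟩
  · exfalso
    rw [hed, h2, h1] at h4
    linarith

/-- the ends of an edge of a geodesic -/
theorem ends_le (h : Ok c) {y p : V d} {v : List (St d)} {s : St d} (hv : Geo c y v)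
    (he : ed p s ∈ eds y v) : T c y p ≤ T c y (pos y v) ∧ T c y (p + sv s) ≤ T c y (pos y v) := by
  obtain ⟨a, b, s', hab, hed⟩ := mem_eds_split he
  have h1 := h.split hv a.length
  have h2 := h.split hv (a ++ [s']).length
  have e1 : v.take a.length = a := by rw [hab, List.take_left]
  have e2 : v.take (a ++ [s']).length = a ++ [s'] := by
    rw [hab, show a ++ s' :: b = (a ++ [s']) ++ b by simp, List.take_left]
  rw [e1] at h1
  rw [e2, pos_append] at h2
  have e3 : pos (pos y a) [s'] = pos y a + sv s' := rfl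
  rw [e3] at h2
  have h3 := T_nonneg h.ps (pos y a) (pos y v)
  have h4 := T_nonneg h.ps (pos y a + sv s') (pos y v)
  rcases ed_eq hed with ⟨h5, h6⟩ | ⟨h5, h6⟩
  · rw [h6] at h2 h4
    rw [h5] at h1 h3
    constructor <;> linarith
  · rw [h6] at h2 h4
    rw [h5] at h1 h3
    constructor <;> linarith

/-- common part of the two disjointness statements: `f₂` is on one of the two rays of `f₁` -/
theorem meet {x y : V d} {w : List (St d)} {m₁ n₁ : ℕ} {A₁ H₁ : ℝ} {p₁ p₂ : V d}
    {s₁ s₂ : St d} (h1 : Gw x y w m₁ n₁ A₁ H₁ p₁ s₁ c)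
    (h2 : ∀ u v, w <+: u → ¬ CoalA c x y (ed p₂ s₂) u v) :
    ∃ u v z : List (St d), u.length = n₁ ∧ w <+: u ∧ pos x u = p₁ ∧ pos y v = p₁ ∧
      be c x y p₁ < be c x y (pos x (u.take m₁)) ∧
      T c x p₁ ≤ H₁ ∧ 2 * T c x y + A₁ < T c x p₁ ∧
      Geo c x (u ++ s₁ :: z) ∧ Geo c y (v ++ s₁ :: z) ∧
      (ed p₂ s₂ ∈ eds x (u ++ s₁ :: z) ∨ ed p₂ s₂ ∈ eds y v) := by
  obtain ⟨-, u, v, hn, hw, hu, hv, hm, hH, hH0, hz⟩ := h1
  have h3 := h2 (u ++ [s₁]) (v ++ [s₁]) (hw.trans (List.prefix_append _ _))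
  unfold CoalA at h3
  rw [not_and] at h3
  have h4 : pos x (u ++ [s₁]) = pos y (v ++ [s₁]) := by rw [pos_append, pos_append, hu, hv]
  have h5 := h3 h4
  push Not at h5
  obtain ⟨l, hl⟩ := h5
  obtain ⟨z, hzl, hg1, hg2⟩ := hz l
  refine ⟨u, v, z, hn, hw, hu, hv, hm, hH, hH0, hg1, hg2, ?_⟩
  by_contra hcon
  push Not at hcon
  obtain ⟨hc1, hc2⟩ := hcon
  have e1 : (u ++ [s₁]) ++ z = u ++ s₁ :: z := by simp
  have e2 : (v ++ [s₁]) ++ z = v ++ s₁ :: z := by simp
  have h6 := hl z hzl (by rw [e1]; exact ⟨hg1, hc1⟩)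
  rw [e2] at h6
  have h7 := h6 hg2
  rw [eds_append, List.mem_append, hv] at h7
  rcases h7 with h7 | h7
  · exact hc2 h7
  · apply hc1
    rw [eds_append, List.mem_append, hu]
    exact Or.inr h7

theorem disj_lt (h : Ok c) (hq : Uq c) {x y : V d} {w : List (St d)} {m₁ n₁ m₂ n₂ : ℕ}
    {A₁ H₁ A₂ H₂ : ℝ} {p₁ p₂ : V d} {s₁ s₂ : St d} (hm : n₁ ≤ m₂) (hn : n₁ < n₂) (hH : H₁ ≤ A₂)
    (h1 : Gw x y w m₁ n₁ A₁ H₁ p₁ s₁ c) (h2 : Gw x y w m₂ n₂ A₂ H₂ p₂ s₂ c) : False := by
  obtain ⟨u, v, z, hun, -, hu, hv, -, hH1, -, hg1, hg2, hor⟩ := meet h1 h2.1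
  obtain ⟨-, u2, v2, hun2, -, hu2, hv2, hm2, -, hH2, hz2⟩ := h2
  obtain ⟨z2, -, hgx, hgy⟩ := hz2 0
  have hgx2 : Geo c x (u2 ++ [s₂]) := by
    have := hgx.take (u2 ++ [s₂]).length
    rwa [show u2 ++ s₂ :: z2 = (u2 ++ [s₂]) ++ z2 by simp, List.take_left] at this
  rcases hor with hor | hor
  · obtain ⟨b, hb⟩ := dir h hq hu2 hgx2 hg1 hor
    -- `u` is a beginning of `u2`
    obtain ⟨z', hz'⟩ : ∃ z', u2 = u ++ s₁ :: z' ∧ z = z' ++ s₂ :: b := by
      have hpre : u ++ [s₁] <+: u2 := by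
        refine List.prefix_of_prefix_length_le (l₃ := u ++ s₁ :: z) ?_ ?_ ?_
        · exact ⟨z, by simp⟩
        · rw [hb]; exact List.prefix_append _ _
        · rw [List.length_append, hun, hun2]; simpa using hn
      obtain ⟨z', hz'⟩ := hpre
      refine ⟨z', by rw [← hz']; simp, ?_⟩
      rw [← hz'] at hb
      have : u ++ s₁ :: z = u ++ s₁ :: (z' ++ s₂ :: b) := by rw [hb]; simp
      simpa using this
    obtain ⟨hz1, hz3⟩ := hz'
    have hgu : Geo c x u := by
      have := hg1.take u.length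
      rwa [List.take_left] at this
    have hgv : Geo c y v := by
      have := hg2.take v.length
      rwa [List.take_left] at this
    have hgu2 : Geo c x u2 := by
      have := hgx2.take u2.length
      rwa [List.take_left] at this
    have hgv' : Geo c y (v ++ s₁ :: z') := by
      have := hg2.take (v ++ s₁ :: z').length
      rw [hz3, show v ++ s₁ :: (z' ++ s₂ :: b) = (v ++ s₁ :: z') ++ s₂ :: b by simp,
        List.take_left] at this
      exact this
    have hp2 : pos p₁ (s₁ :: z') = p₂ := by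
      rw [← hu2, hz1, pos_append, hu]
    have e1 : T c x p₂ = T c x p₁ + cost c p₁ (s₁ :: z') := by
      have h3 := (h.geo_iff x _).1 hgu2
      have h4 := (h.geo_iff x _).1 hgu
      rw [hu2] at h3
      rw [hu] at h4
      rw [← h3, hz1, cost_append, hu, h4]
    have e2 : T c y p₂ = T c y p₁ + cost c p₁ (s₁ :: z') := by
      have h3 := (h.geo_iff y _).1 hgv'
      have h4 := (h.geo_iff y _).1 hgv
      rw [pos_append, hv, hp2] at h3
      rw [hv] at h4
      rw [← h3, cost_append, hv, h4]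
    -- monotonicity
    have h5 := h.split (hgu2.take m₂) n₁
    have e3 : (u2.take m₂).take n₁ = u := by
      rw [List.take_take, min_eq_left hm, hz1, ← hun, List.take_left]
    rw [e3, hu] at h5
    have h6 := dl_mono (y := y) h h5.le
    unfold be at hm2
    unfold dl at h6
    linarith
  · have hgv : Geo c y v := by
      have := hg2.take v.length
      rwa [List.take_left] at this
    have h3 := (ends_le h hgv hor).1
    rw [hv] at h3
    have h4 := h.triangle x y p₂
    have h5 := h.triangle y x p₁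
    rw [T_symm c y x] at h5
    linarith

theorem disj_eq (h : Ok c) (hq : Uq c) {x y : V d} {w : List (St d)} {m n : ℕ}
    {A H : ℝ} {p₁ p₂ : V d} {s₁ s₂ : St d}
    (h1 : Gw x y w m n A H p₁ s₁ c) (h2 : Gw x y w m n A H p₂ s₂ c) : p₁ = p₂ ∧ s₁ = s₂ := by
  have key : ∀ {p₁ p₂ : V d} {s₁ s₂ : St d}, Gw x y w m n A H p₁ s₁ c →
      Gw x y w m n A H p₂ s₂ c → (p₁ = p₂ ∧ s₁ = s₂) ∨ T c y p₂ < T c y p₁ := by
    intro p₁ p₂ s₁ s₂ h1 h2
    obtain ⟨u, v, z, hun, -, hu, hv, -, -, -, hg1, hg2, hor⟩ := meet h1 h2.1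
    obtain ⟨-, u2, v2, hun2, -, hu2, hv2, -, -, -, hz2⟩ := h2
    obtain ⟨z2, -, hgx, hgy⟩ := hz2 0
    rcases hor with hor | hor
    · have hgx2 : Geo c x (u2 ++ [s₂]) := by
        have := hgx.take (u2 ++ [s₂]).length
        rwa [show u2 ++ s₂ :: z2 = (u2 ++ [s₂]) ++ z2 by simp, List.take_left] at this
      obtain ⟨b, hb⟩ := dir h hq hu2 hgx2 hg1 hor
      obtain ⟨h3, h4⟩ := List.append_inj hb (by rw [hun, hun2])
      left
      refine ⟨by rw [← hu, ← hu2, h3], ?_⟩
      simp only [List.cons.injEq] at h4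
      exact h4.1
    · right
      have hgv : Geo c y v := by
        have := hg2.take v.length
        rwa [List.take_left] at this
      have hgy2 : Geo c y (v2 ++ [s₂]) := by
        have := hgy.take (v2 ++ [s₂]).length
        rwa [show v2 ++ s₂ :: z2 = (v2 ++ [s₂]) ++ z2 by simp, List.take_left] at this
      have h3 := (ends_le h hgv hor).2
      rw [hv] at h3
      have h4 := snoc_cost h hv2 hgy2
      have h5 := h.ps (ed p₂ s₂)
      linarith
  rcases key h1 h2 with h3 | h3
  · exact h3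
  · rcases key h2 h1 with h4 | h4
    · exact ⟨h4.1.symm, h4.2.symm⟩
    · exact absurd h3 (not_lt.2 h4.le)

end Pool.Agent.Helper27.PG
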