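import Pool.Agent.Helper27.PG.Defs
import Pool.Agent.Helper79.GQ.AA
import Pool.Agent.Helper98.GM.M1

/-!
# The join theorem for all laws: the events `Aw` occur for half of the indices
-/

set_option autoImplicit false

namespace Pool.Agent.Helper27.PG

open Pool.Agent.Helper79.GR Pool.Agent.Helper41.JT MeasureTheory ProbabilityTheory

variable {d : ℕ} {c : Edge d → ℝ}

/-- a ray through `w` -/
theorem exists_ray {x : V d} {w : List (St d)} (hL : Liv c x w) :
    ∃ g : ℕ → St d, RayF c x g ∧ ∀ n, w.length ≤ n → w <+: pre g n := by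
  obtain ⟨f, hf⟩ := Pool.Agent.Helper79.GQ.konig_gen (fun z : List (St d) => Geo c x (w ++ z))
    (fun l a h => by
      have := h.take (w ++ l).length
      rwa [← List.append_assoc, List.take_left] at this) hL
  set g : ℕ → St d := fun i => if h : i < w.length then w[i] else f (i - w.length) with hg
  have key : ∀ n, pre g n = (w ++ (List.range n).map f).take n := by
    intro n
    apply List.ext_getElem
    · simp [pre]
    · intro i h1 h2
      rw [List.getElem_take]
      have hi : i < n := by simpa [pre] using h1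
      have e1 : (pre g n)[i]'h1 = g i := by simp [pre]
      rw [e1]
      by_cases h : i < w.length
      · rw [List.getElem_append_left h]
        simp [hg, h]
      · rw [List.getElem_append_right (not_lt.1 h)]
        simp [hg, h]
  refine ⟨g, fun n => ?_, fun n hn => ?_⟩
  · rw [key]
    exact (hf n).take n
  · rw [key, List.prefix_take_iff]
    exact ⟨List.prefix_append _ _, hn⟩

theorem pre_add (g : ℕ → St d) (m n : ℕ) :
    pre g (m + n) = pre g m ++ (List.range n).map fun i => g (m + i) := by
  simp [pre, List.range_add]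

theorem eds_pre (x : V d) (g : ℕ → St d) (n : ℕ) :
    eds x (pre g n) = (List.range n).map fun i => ed (pos x (pre g i)) (g i) := by
  induction n with
  | zero => rfl
  | succ n ih =>
    rw [pre_succ, Pool.Agent.Helper79.GR.eds_append, ih, List.range_succ, List.map_append]
    rfl

theorem be_anti (h : Ok c) {x y : V d} {g : ℕ → St d} (hg : RayF c x g) :
    Antitone fun n => be c x y (pos x (pre g n)) := by
  intro n m hnm
  have := dl_mono (y := y) h (hg.split h hnm).le
  unfold dl at this
  show be c x y (pos x (pre g m)) ≤ be c x y (pos x (pre g n))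
  unfold be
  linarith

theorem be_ge (h : Ok c) (x y v : V d) : -T c x y ≤ be c x y v := by
  have := dl_le h x y v
  unfold dl at this
  unfold be
  linarith

/-- nearly the limit -/
theorem be_lim (h : Ok c) {x y : V d} {g : ℕ → St d} (hg : RayF c x g) {η : ℝ} (hη : 0 < η) :
    ∃ n₀, ∀ n ≥ n₀, ∀ k, be c x y (pos x (pre g n)) - be c x y (pos x (pre g k)) ≤ η := by
  have hb : BddBelow (Set.range fun n => be c x y (pos x (pre g n))) := by
    refine ⟨-T c x y, ?_⟩
    rintro _ ⟨n, rfl⟩
    exact be_ge h x y _
  obtain ⟨n₀, hn₀⟩ := exists_lt_of_ciInf_lt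
    (show (⨅ n, be c x y (pos x (pre g n))) < (⨅ n, be c x y (pos x (pre g n))) + η by linarith)
  refine ⟨n₀, fun n hn k => ?_⟩
  have h1 := be_anti (y := y) h hg hn
  have h2 : (⨅ n, be c x y (pos x (pre g n))) ≤ be c x y (pos x (pre g k)) := ciInf_le hb k
  simp only at h1
  linarith

/-- if `y` does not join then the function decreases again and again -/
theorem be_lt (h : Ok c) {x y : V d} {w : List (St d)} {g : ℕ → St d} (hg : RayF c x g)
    (hw : ∀ n, w.length ≤ n → w <+: pre g n) (hco : ∀ u v, w <+: u → ¬ Coal c x y u v) (m : ℕ) :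
    ∃ n₀, ∀ n ≥ n₀, be c x y (pos x (pre g n)) < be c x y (pos x (pre g m)) := by
  set m' := max m w.length with hm'
  have hne : ∃ n ≥ m', be c x y (pos x (pre g n)) ≠ be c x y (pos x (pre g m')) := by
    by_contra hcon
    push Not at hcon
    obtain ⟨v, hv, hgv⟩ := h.exists_geo y (pos x (pre g m'))
    refine hco (pre g m') v (hw m' (le_max_right _ _)) ⟨hv.symm, fun n => ?_⟩
    refine ⟨(List.range n).map fun i => g (m' + i), by simp, ?_, ?_⟩
    · rw [← pre_add]
      exact hg _
    · set z := (List.range n).map fun i => g (m' + i) with hz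
      have e0 : pos (pos x (pre g m')) z = pos x (pre g (m' + n)) := by
        rw [pre_add, pos_append]
      have e1 : T c x (pos x (pre g (m' + n))) = T c x (pos x (pre g m')) +
          cost c (pos x (pre g m')) z := by
        rw [← (h.geo_iff x _).1 (hg (m' + n)), ← (h.geo_iff x _).1 (hg m'), pre_add, cost_append]
      have e2 := hcon (m' + n) (Nat.le_add_right _ _)
      unfold be at e2
      have e3 : cost c y v = T c y (pos x (pre g m')) := by
        rw [← hv]
        exact (h.geo_iff y v).1 hgv
      rw [h.geo_iff, pos_append, cost_append, hv, e0, e3]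
      linarith
  obtain ⟨n₀, hn₀, hne⟩ := hne
  refine ⟨n₀, fun n hn => ?_⟩
  have h1 := be_anti (y := y) h hg hn
  have h2 := be_anti (y := y) h hg hn₀
  have h3 := be_anti (y := y) h hg (le_max_left m w.length)
  simp only at h1 h2 h3
  have h4 := lt_of_le_of_ne h2 hne
  linarith

theorem T_far (h : Ok c) {x : V d} {g : ℕ → St d} (hg : RayF c x g) (M : ℝ) :
    ∃ n₀, ∀ n ≥ n₀, M < T c x (pos x (pre g n)) := by
  have hinj : Function.Injective (pre g) := by
    intro i j hij
    have := congrArg List.length hij
    rwa [length_pre, length_pre] at this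
  have hfin : {n | cost c x (pre g n) ≤ M}.Finite :=
    (h.fin x M).preimage hinj.injOn
  obtain ⟨n₀, hn₀⟩ := hfin.bddAbove
  refine ⟨n₀ + 1, fun n hn => ?_⟩
  by_contra hcon
  rw [not_lt, ← (h.geo_iff x _).1 (hg n)] at hcon
  have := hn₀ hcon
  omega

open Classical in
theorem ev (h : Ok c) {x y : V d} {w : List (St d)} {θ η : ℝ} (hη : 0 < η)
    (hE : Ew x y w c)
    (hhigh : ∃ n₀ : ℕ, ∀ w : List (St d), n₀ ≤ w.length → (eds x w).Nodup →
      2 * (eds x w).countP (fun e => decide (c e < θ)) ≤ w.length) (m : ℕ) (H₀ : ℝ) :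
    ∃ n₁ : ℕ, ∀ N : ℕ, N ≤ 2 * ((Finset.range N).filter (fun n => ∃ (H : ℕ) (p : V d) (s : St d),
      Aw x y w θ η m n H₀ H p s c)).card + n₁ := by
  obtain ⟨hL, hco⟩ := hE
  obtain ⟨g, hg, hw⟩ := exists_ray hL
  obtain ⟨na, hna⟩ := be_lim (y := y) h hg hη
  obtain ⟨nb, hnb⟩ := be_lt (y := y) h hg hw hco m
  obtain ⟨nc, hnc⟩ := T_far h hg (2 * T c x y + H₀)
  obtain ⟨nd, hnd⟩ := hhigh
  set n₂ := max (max na nb) (max nc (max w.length m)) with hn₂
  -- good indices
  have hgood : ∀ n, n₂ ≤ n → θ ≤ c (ed (pos x (pre g n)) (g n)) →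
      ∃ (H : ℕ) (p : V d) (s : St d), Aw x y w θ η m n H₀ H p s c := by
    intro n hn hθ
    have h1 : na ≤ n := ((le_max_left _ _).trans (le_max_left _ _)).trans hn
    have h2 : nb ≤ n := ((le_max_right _ _).trans (le_max_left _ _)).trans hn
    have h3 : nc ≤ n := ((le_max_left _ _).trans (le_max_right _ _)).trans hn
    have h4 : w.length ≤ n :=
      ((le_max_left _ _).trans ((le_max_right _ _).trans (le_max_right _ _))).trans hn
    have h5 : m ≤ n :=
      ((le_max_right _ _).trans ((le_max_right _ _).trans (le_max_right _ _))).trans hn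
    obtain ⟨H, hH⟩ := exists_nat_ge (T c x (pos x (pre g n)))
    refine ⟨H, pos x (pre g n), g n, hθ, hco, pre g n, length_pre g n, hw n h4, rfl, ?_, hH,
      hnc n h3, fun l => ⟨(List.range l).map fun i => g (n + 1 + i), by simp, ?_, ?_⟩⟩
    · rw [take_pre g h5]
      exact hnb n h2
    · have e : pre g n ++ g n :: (List.range l).map (fun i => g (n + 1 + i)) =
          pre g (n + 1 + l) := by
        rw [pre_add g (n + 1) l, pre_succ]
        simp
      rw [e]
      exact hg _
    · have e : pre g n ++ g n :: (List.range l).map (fun i => g (n + 1 + i)) =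
          pre g (n + 1 + l) := by
        rw [pre_add g (n + 1) l, pre_succ]
        simp
      rw [e]
      exact hna n h1 _
  refine ⟨2 * n₂ + nd, fun N => ?_⟩
  by_cases hN : nd ≤ N
  · have h1 := hnd (pre g N) (by rw [length_pre]; exact hN)
      (Pool.Agent.Helper98.GK.geo_nodup h.ps (hg N))
    rw [length_pre, eds_pre, List.countP_map] at h1
    have h2 : (List.range N).countP ((fun e => decide (c e < θ)) ∘
        fun i => ed (pos x (pre g i)) (g i)) =
        ((Finset.range N).filter (fun i => c (ed (pos x (pre g i)) (g i)) < θ)).card := by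
      rw [List.countP_eq_length_filter]
      rfl
    rw [h2] at h1
    have h3 : ((Finset.range N).filter (fun i => c (ed (pos x (pre g i)) (g i)) < θ)).card +
        ((Finset.range N).filter (fun i => ¬ c (ed (pos x (pre g i)) (g i)) < θ)).card = N := by
      rw [Finset.card_filter_add_card_filter_not, Finset.card_range]
    have h4 : ((Finset.range N).filter (fun i => ¬ c (ed (pos x (pre g i)) (g i)) < θ)).card ≤
        ((Finset.range N).filter (fun n => ∃ (H : ℕ) (p : V d) (s : St d),
          Aw x y w θ η m n H₀ H p s c)).card + n₂ := by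
      have h5 : (Finset.range N).filter (fun i => ¬ c (ed (pos x (pre g i)) (g i)) < θ) ⊆
          (Finset.range N).filter (fun n => ∃ (H : ℕ) (p : V d) (s : St d),
            Aw x y w θ η m n H₀ H p s c) ∪ Finset.range n₂ := by
        intro i hi
        rw [Finset.mem_filter] at hi
        rw [Finset.mem_union, Finset.mem_filter]
        by_cases hi2 : i < n₂
        · exact Or.inr (Finset.mem_range.2 hi2)
        · exact Or.inl ⟨hi.1, hgood i (not_lt.1 hi2) (not_lt.1 hi.2)⟩
      refine (Finset.card_le_card h5).trans ((Finset.card_union_le _ _).trans ?_)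
      rw [Finset.card_range]
    omega
  · omega

end Pool.Agent.Helper27.PG
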