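import Pool.Agent.Helper27.PG.Defs

/-!
# The join theorem for all laws: lowering one edge (`Aw → Gw`)
-/

set_option autoImplicit false

namespace Pool.Agent.Helper27.PG

open Pool.Agent.Helper79.GR Pool.Agent.Helper41.JT MeasureTheory ProbabilityTheory

variable {d : ℕ} {c : Edge d → ℝ}

theorem low_bound [DecidableEq (Edge d)] (h : Ok c) {y p : V d} {s : St d} {t : ℝ} (ht : 0 < t)
    (hyq : T c y p ≤ T c y (p + sv s)) (v : V d) :
    min (T c y v) (T c y p + t + T c (p + sv s) v) ≤
      T (Function.update c (ed p s) t) y v := by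
  set q := p + sv s with hq
  have hc' : Ok (Function.update c (ed p s) t) := h.update _ ht
  set φ : V d → ℝ := fun v => min (T c y v) (T c y p + t + T c q v) with hφ
  have hl : ∀ v s', φ (v + sv s') ≤ φ v + Function.update c (ed p s) t (ed v s') := by
    apply lip_update
    · intro v s'
      have h1 := h.step_right y v s'
      have h2 := h.step_right q v s'
      simp only [hφ]
      rw [← min_add_add_right]
      exact min_le_min h1 (by linarith)
    · simp only [hφ]
      have h1 : T c q q = 0 := T_self h.ps q
      have h2 : min (T c y p) (T c y p + t + T c q p) = T c y p := by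
        apply min_eq_left
        have := T_nonneg h.ps q p
        linarith
      rw [h2]
      refine (min_le_right _ _).trans ?_
      rw [h1]; linarith
    · simp only [hφ]
      have h1 : T c q q = 0 := T_self h.ps q
      refine (min_le_left _ _).trans ?_
      rw [h1, add_zero, ← min_add_add_right]
      exact le_min (by linarith) (by linarith)
  have h1 := hc'.le_T_of_lip hl y v
  have h2 : φ y ≤ 0 := by
    simp only [hφ]
    refine (min_le_left _ _).trans ?_
    rw [T_self h.ps]
  simp only [hφ] at h1 h2
  linarith

theorem T_tail [DecidableEq (Edge d)] (h : Ok c) {y p : V d} {s : St d} {t : ℝ} (ht : 0 < t)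
    (hle : t ≤ c (ed p s)) (hyq : T c y p ≤ T c y (p + sv s)) :
    T (Function.update c (ed p s) t) y p = T c y p := by
  have hc' : Ok (Function.update c (ed p s) t) := h.update _ ht
  refine le_antisymm (T_mono h hc'.ps (update_le hle) y p) ?_
  refine le_trans ?_ (low_bound h ht hyq p)
  refine le_min le_rfl ?_
  have := T_nonneg h.ps (p + sv s) p
  linarith

/-- lowering an edge on a geodesic keeps the geodesic -/
theorem geo_low [DecidableEq (Edge d)] (h : Ok c) {x p : V d} {u z : List (St d)} {s : St d}
    {t : ℝ} (ht : 0 < t) (hle : t ≤ c (ed p s)) (hu : pos x u = p)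
    (hg : Geo c x (u ++ s :: z)) : Geo (Function.update c (ed p s) t) x (u ++ s :: z) := by
  set c' := Function.update c (ed p s) t with hc
  have hc' : Ok c' := h.update _ ht
  have hz : pos x (u ++ s :: z) = pos (p + sv s) z := by rw [pos_append, hu]; rfl
  have h1 : cost c x u + (c (ed p s) + cost c (p + sv s) z) = T c x (pos (p + sv s) z) := by
    rw [← hz, ← (h.geo_iff x _).1 hg, cost_append, hu]
    rfl
  have h2 : T c x p ≤ cost c x u := T_le_cost' h.ps hu
  have h3 : T c (p + sv s) (pos (p + sv s) z) ≤ cost c (p + sv s) z := T_le_cost' h.ps rfl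
  have h4 := h.triangle x (p + sv s) (pos (p + sv s) z)
  have h5 := h.step_right x p s
  have hxq : T c x p ≤ T c x (p + sv s) := by
    have := h.ps (ed p s)
    linarith
  have h6 := low_bound (c := c) h ht hxq (pos (p + sv s) z)
  have h7 : min (T c x (pos (p + sv s) z))
      (T c x p + t + T c (p + sv s) (pos (p + sv s) z)) =
      T c x p + t + T c (p + sv s) (pos (p + sv s) z) := by
    apply min_eq_right
    linarith
  rw [h7] at h6
  have h8 : cost c' x u ≤ cost c x u := cost_mono (update_le hle) x u
  have h9 : cost c' (p + sv s) z ≤ cost c (p + sv s) z := cost_mono (update_le hle) _ z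
  have h10 : cost c' x (u ++ s :: z) = cost c' x u + (t + cost c' (p + sv s) z) := by
    rw [cost_append, hu]
    show cost c' x u + (c' (ed p s) + cost c' (p + sv s) z) = _
    rw [hc, Function.update_self]
  rw [hc'.geo_iff, hz]
  refine le_antisymm ?_ (T_le_cost' hc'.ps hz)
  rw [h10]
  have h11 : T c x (p + sv s) + T c (p + sv s) (pos (p + sv s) z) ≤
      T c x (pos (p + sv s) z) := by
    linarith
  linarith

/-- **the flip** -/
theorem gw_of_aw [DecidableEq (Edge d)] (h : Ok c) {x y : V d} {w : List (St d)} {θ η : ℝ}
    {m n : ℕ} {H₀ H : ℝ} {p : V d} {s : St d} (hη : 0 ≤ η) {t : ℝ} (ht : 0 < t)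
    (hlt : t < θ - η) (hA : Aw x y w θ η m n H₀ H p s c) :
    Gw x y w m n H₀ H p s (Function.update c (ed p s) t) := by
  obtain ⟨hθ, hco, u, hn, hw, hu, hm, hH, hH0, hz⟩ := hA
  set c' := Function.update c (ed p s) t with hc
  have hc' : Ok c' := h.update _ ht
  have hle : t ≤ c (ed p s) := by linarith
  -- the head of the edge
  obtain ⟨z0, hz0, hg0, hb0⟩ := hz 0
  obtain rfl : z0 = [] := List.length_eq_zero_iff.1 hz0
  have hq : pos x (u ++ [s]) = p + sv s := by rw [pos_append, hu]; rfl
  rw [hq] at hb0
  have hgu : Geo c x u := by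
    have := hg0.take u.length
    rwa [List.take_left] at this
  have hcu : cost c x u = T c x p := by
    rw [← hu]
    exact (h.geo_iff x u).1 hgu
  have hxq : T c x (p + sv s) = T c x p + c (ed p s) := by
    have h1 := (h.geo_iff x _).1 hg0
    rw [hq, cost_append, hu, hcu] at h1
    rw [← h1]
    simp [cost]
  have hyq : T c y p ≤ T c y (p + sv s) := by
    unfold be at hb0
    linarith
  have hTx : T c' x p = T c x p := T_tail h ht hle (by
    rw [hxq]
    have := h.ps (ed p s)
    linarith)
  have hTy : T c' y p = T c y p := T_tail h ht hle hyq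
  obtain ⟨v, hv, hgv⟩ := hc'.exists_geo y p
  refine ⟨?_, u, v, hn, hw, hu, hv, ?_, ?_, ?_, ?_⟩
  · rintro u2 v2 hw2 ⟨h1, h2⟩
    refine hco u2 v2 hw2 ⟨h1, fun l => ?_⟩
    obtain ⟨z, hzl, ⟨hz1, hz2⟩, hz3, hz4⟩ := h2 l
    exact ⟨z, hzl, geo_of_avoid hle hz1 hz2, geo_of_avoid hle hz3 hz4⟩
  · -- the vertex with index `m`
    set r := pos x (u.take m) with hr
    have hsp := h.split hgu m
    rw [hu, ← hr] at hsp
    have h1 := low_bound h ht hyq r
    have h2 : T c' x r ≤ T c x r := T_mono h hc'.ps (update_le hle) x r
    have h3 := T_nonneg h.ps r p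
    have h4 := T_nonneg h.ps (p + sv s) r
    unfold be at hm ⊢
    rw [hTx, hTy]
    rcases min_le_iff.1 h1 with h5 | h5
    · linarith
    · linarith
  · rw [hTx]; exact hH
  · rw [hTx]
    have : T c' x y ≤ T c x y := T_mono h hc'.ps (update_le hle) x y
    linarith
  · intro l
    obtain ⟨z, hzl, hg, hb⟩ := hz l
    have hg' := geo_low h ht hle hu hg
    refine ⟨z, hzl, hg', ?_⟩
    have hzz : pos x (u ++ s :: z) = pos (p + sv s) z := by rw [pos_append, hu]; rfl
    rw [hzz] at hb
    set zz := pos (p + sv s) z with hzzd
    have h1 : cost c x u + (c (ed p s) + cost c (p + sv s) z) = T c x zz := by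
      rw [← hzz, ← (h.geo_iff x _).1 hg, cost_append, hu]
      rfl
    have h3 : T c (p + sv s) zz ≤ cost c (p + sv s) z := T_le_cost' h.ps rfl
    have hThr : Thr c' y p s zz := by
      refine step_one (x := x) (ε := η) h ht hη (by linarith) (by linarith) ?_
      unfold be at hb
      unfold dl
      linarith
    unfold Thr at hThr
    have e1 : c' (ed p s) = t := by rw [hc, Function.update_self]
    rw [e1] at hThr
    -- the cost of the last piece
    have h5 : cost c' x u + (t + cost c' (p + sv s) z) = T c' x zz := by
      have := (hc'.geo_iff x _).1 hg'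
      rw [hzz, cost_append, hu] at this
      rw [← this, ← e1]
      rfl
    have h6 := hc'.triangle x (p + sv s) zz
    have h7 : T c' x (p + sv s) ≤ cost c' x u + t := by
      have := T_le_cost' hc'.ps (c := c') (w := u ++ [s]) hq
      rw [cost_append, hu] at this
      have e2 : cost c' p [s] = t := by rw [← e1]; simp [cost]
      rwa [e2] at this
    have h8 : cost c' y v = T c' y p := by
      rw [← hv]
      exact (hc'.geo_iff y v).1 hgv
    rw [hc'.geo_iff, pos_append, hv]
    have e3 : pos p (s :: z) = zz := rfl
    rw [e3, cost_append, hv, h8]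
    have e4 : cost c' p (s :: z) = t + cost c' (p + sv s) z := by rw [← e1]; rfl
    rw [e4]
    refine le_antisymm (by linarith) ?_
    have h9 := hc'.triangle y p zz
    have h10 : T c' p zz ≤ t + cost c' (p + sv s) z := by
      rw [← e4]
      exact T_le_cost' hc'.ps rfl
    linarith

end Pool.Agent.Helper27.PG
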