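import Pool.Agent.Helper27.PG.Ev

/-!
# The join theorem for all laws: from the null events to the joining of rays
-/

set_option autoImplicit false

namespace Pool.Agent.Helper27.PG

open Pool.Agent.Helper79.GR Pool.Agent.Helper41.JT MeasureTheory ProbabilityTheory

variable {d : ℕ} {c : Edge d → ℝ}

/-- first the word `u`, then `f` -/
def comp (u : List (St d)) (f : ℕ → St d) : ℕ → St d :=
  fun i => if h : i < u.length then u[i] else f (i - u.length)

theorem pre_comp (u : List (St d)) (f : ℕ → St d) (l : ℕ) :
    pre (comp u f) (u.length + l) = u ++ (List.range l).map f := by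
  apply List.ext_getElem
  · simp [pre]
  · intro i h1 h2
    have e1 : (pre (comp u f) (u.length + l))[i]'h1 = comp u f i := by simp [pre]
    rw [e1]
    by_cases h : i < u.length
    · rw [List.getElem_append_left h]
      simp [comp, h]
    · rw [List.getElem_append_right (not_lt.1 h)]
      simp [comp, h]

theorem comp_add (u : List (St d)) (f : ℕ → St d) (i : ℕ) : comp u f (u.length + i) = f i := by
  simp [comp]

theorem ray_comp {x : V d} {u : List (St d)} {f : ℕ → St d}
    (h : ∀ l, Geo c x (u ++ (List.range l).map f)) : RayF c x (comp u f) := by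
  intro n
  have h1 := h n
  rw [← pre_comp] at h1
  have h2 := h1.take n
  rwa [take_pre _ (Nat.le_add_left n _)] at h2

theorem pos_shift {x y : V d} {r h : ℕ → St d} {a b : ℕ}
    (h0 : pos x (pre r a) = pos y (pre h b)) (hs : ∀ i, r (a + i) = h (b + i)) (i : ℕ) :
    pos x (pre r (a + i)) = pos y (pre h (b + i)) := by
  induction i with
  | zero => exact h0
  | succ i ih => rw [← add_assoc, ← add_assoc, pos_pre_succ, pos_pre_succ, ih, hs]

theorem pre_apply (r : ℕ → St d) {i n : ℕ} (h : i < n) :
    (pre r n)[i]? = some (r i) := by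
  simp [pre, h]

theorem ray_unique (hq : Uq c) {x y : V d} {r r' h : ℕ → St d} {a b a' b' : ℕ}
    (hr : RayF c x r) (hr' : RayF c x r')
    (h0 : pos x (pre r a) = pos y (pre h b)) (hs : ∀ i, r (a + i) = h (b + i))
    (h0' : pos x (pre r' a') = pos y (pre h b')) (hs' : ∀ i, r' (a' + i) = h (b' + i)) :
    r = r' := by
  funext i
  obtain ⟨j, hj1, hj2, hj3⟩ : ∃ j, b ≤ j ∧ b' ≤ j ∧ i + b < j := ⟨b + b' + i + 1, by omega,
    by omega, by omega⟩
  have h1 := pos_shift h0 hs (j - b)
  have h2 := pos_shift h0' hs' (j - b')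
  rw [Nat.add_sub_cancel' hj1] at h1
  rw [Nat.add_sub_cancel' hj2] at h2
  have h3 := hq x _ _ (hr (a + (j - b))) (hr' (a' + (j - b'))) (h1.trans h2.symm)
  have h4 : a + (j - b) = a' + (j - b') := by
    have := congrArg List.length h3
    rwa [length_pre, length_pre] at this
  have h5 : i < a + (j - b) := by omega
  have e1 := pre_apply r h5
  have e2 := pre_apply r' (h4 ▸ h5)
  rw [h3, e2] at e1
  exact (Option.some.inj e1).symm

theorem join_det (hq : Uq c) {x y : V d} (hE : ∀ w, ¬ Ew x y w c)
    (hfin : {g : ℕ → St d | RayF c y g}.Finite) (g : ℕ → St d) (hg : RayF c x g) :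
    ∃ g' : ℕ → St d, RayF c y g' ∧ ∃ m m' : ℕ, pos x (pre g m) = pos y (pre g' m') ∧
      ∀ i, g (m + i) = g' (m' + i) := by
  have key : ∀ n : ℕ, ∃ (r h : ℕ → St d) (a b : ℕ), RayF c x r ∧ RayF c y h ∧
      pre r n = pre g n ∧ pos x (pre r a) = pos y (pre h b) ∧ ∀ i, r (a + i) = h (b + i) := by
    intro n
    have h1 := hE (pre g n)
    unfold Ew at h1
    rw [not_and] at h1
    have h2 : Liv c x (pre g n) := fun l =>
      ⟨(List.range l).map fun i => g (n + i), by simp, by rw [← pre_add]; exact hg _⟩
    have h3 := h1 h2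
    push Not at h3
    obtain ⟨u, v, hu, hpos, hz⟩ := h3
    obtain ⟨f, hf⟩ := Pool.Agent.Helper79.GQ.konig_gen
      (fun z : List (St d) => Geo c x (u ++ z) ∧ Geo c y (v ++ z))
      (fun l a h => by
        have h4 := h.1.take (u ++ l).length
        have h5 := h.2.take (v ++ l).length
        rw [← List.append_assoc, List.take_left] at h4 h5
        exact ⟨h4, h5⟩) hz
    refine ⟨comp u f, comp v f, u.length, v.length, ray_comp fun l => (hf l).1,
      ray_comp fun l => (hf l).2, ?_, ?_, fun i => ?_⟩
    · have e1 : pre (comp u f) u.length = u := by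
        have := pre_comp u f 0
        simpa using this
      have hle : n ≤ u.length := by
        have := hu.length_le
        rwa [length_pre] at this
      rw [← take_pre (comp u f) hle, e1]
      obtain ⟨t, rfl⟩ := hu
      rw [List.take_append_of_le_length (by rw [length_pre]), List.take_of_length_le
        (by rw [length_pre])]
    · have e1 : pre (comp u f) u.length = u := by
        have := pre_comp u f 0
        simpa using this
      have e2 : pre (comp v f) v.length = v := by
        have := pre_comp v f 0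
        simpa using this
      rw [e1, e2]
      exact hpos
    · rw [comp_add, comp_add]
  choose r h a b hr hh hpre h0 hs using key
  have : Finite {g : ℕ → St d | RayF c y g} := hfin
  obtain ⟨⟨h₁, hh₁⟩, hinf⟩ := Finite.exists_infinite_fiber
    (fun n : ℕ => (⟨h n, hh n⟩ : {g : ℕ → St d | RayF c y g}))
  rw [Set.infinite_coe_iff] at hinf
  have hmem : ∀ n, n ∈ (fun n : ℕ => (⟨h n, hh n⟩ : {g : ℕ → St d | RayF c y g})) ⁻¹'
      {⟨h₁, hh₁⟩} → h n = h₁ := by
    intro n hn
    exact congrArg Subtype.val hn
  obtain ⟨n₀, hn₀⟩ := hinf.nonempty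
  have e0 := hmem n₀ hn₀
  have hgr : g = r n₀ := by
    funext i
    obtain ⟨n, hn, hni⟩ := hinf.exists_gt i
    have e1 := hmem n hn
    have e2 : r n = r n₀ := by
      have s1 := hs n
      have s0 := hs n₀
      have p1 := h0 n
      have p0 := h0 n₀
      rw [e1] at s1 p1
      rw [e0] at s0 p0
      exact ray_unique hq (hr n) (hr n₀) p1 s1 p0 s0
    have e3 := pre_apply g hni
    have e4 := pre_apply (r n) hni
    rw [hpre n, e3, e2] at e4
    exact Option.some.inj e4
  refine ⟨h n₀, hh n₀, a n₀, b n₀, ?_, fun i => ?_⟩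
  · rw [hgr]
    exact h0 n₀
  · rw [hgr]
    exact hs n₀ i

end Pool.Agent.Helper27.PG
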