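import Pool.Agent.Helper27.PG.Sel
import Pool.Agent.Helper27.PG.JoinDet
import Pool.Agent.Helper20.JT.Uq
import Pool.Agent.Helper56.JT.Pei

/-!
# The join theorem for all atomless laws on `[0, ∞)`
-/

set_option autoImplicit false

namespace Pool.Agent.Helper27.PG

open Pool.Agent.Helper79.GR Pool.Agent.Helper41.JT MeasureTheory ProbabilityTheory

variable {Ω : Type*} [MeasurableSpace Ω] {d : ℕ} {P : Measure Ω} {X : Edge d → Ω → ℝ}
  {ν : Measure ℝ}

/-- **The join theorem**: almost surely, for all `x`, `y`: if there are finitely many geodesic rays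
from `y` then every ray from `x` has a common tail with a ray from `y`. -/
theorem join_all (h : EnvA P X ν) (hd : 1 ≤ d) :
    ∀ᵐ ω ∂P, ∀ x y : V d, {g : ℕ → St d | RayF (cf X ω) y g}.Finite →
      ∀ g : ℕ → St d, RayF (cf X ω) x g →
        ∃ g' : ℕ → St d, RayF (cf X ω) y g' ∧ ∃ m m' : ℕ,
          pos x (pre g m) = pos y (pre g' m') ∧ ∀ i, g (m + i) = g' (m' + i) := by
  have hok := Pool.Agent.Helper56.JT.ae_ok h hd
  have huq := Pool.Agent.Helper20.JT.ae_uq h hd hok
  obtain ⟨p, hp, hpei⟩ := Pool.Agent.Helper56.JT.ae_pei h hd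
  obtain ⟨θ, η, hθ, hη, -, hθp, hκ⟩ := Pool.Agent.Helper56.JT.exists_th h hd hp
  have hnull : ∀ᵐ ω ∂P, ∀ (x y : V d) (w : List (St d)), ¬ Ew x y w (cf X ω) := by
    rw [ae_all_iff]
    intro x
    rw [ae_all_iff]
    intro y
    rw [ae_all_iff]
    intro w
    rw [ae_iff]
    simpa using null_Ew h hok huq hη hκ (hpei θ hθp) x y w
  filter_upwards [huq, hnull] with ω h1 h2 x y hfin g hg
  exact join_det h1 (h2 x y) hfin g hg

end Pool.Agent.Helper27.PG
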