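import Pool.Agent.Helper27.PG.Defs
import Pool.Agent.Helper41.JT.Meas

/-!
# The join theorem for all laws: measurability
-/

set_option autoImplicit false

namespace Pool.Agent.Helper27.PG

open Pool.Agent.Helper79.GR Pool.Agent.Helper41.JT MeasureTheory ProbabilityTheory

variable {d : ℕ}

theorem measurable_be (x y v : V d) : Measurable fun c : Edge d → ℝ => be c x y v :=
  (measurable_T_cfg y v).sub (measurable_T_cfg x v)

theorem measurable_Liv (x : V d) (u : List (St d)) :
    Measurable fun c : Edge d → ℝ => Liv c x u := by
  unfold Liv
  exact Measurable.forall fun n => Measurable.exists fun z =>
    measurable_const.and (measurable_Geo x (u ++ z))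

theorem measurable_Coal (x y : V d) (u v : List (St d)) :
    Measurable fun c : Edge d → ℝ => Coal c x y u v := by
  unfold Coal
  exact measurable_const.and (Measurable.forall fun n => Measurable.exists fun z =>
    measurable_const.and ((measurable_Geo x (u ++ z)).and (measurable_Geo y (v ++ z))))

theorem measurable_CoalA (x y : V d) (e : Edge d) (u v : List (St d)) :
    Measurable fun c : Edge d → ℝ => CoalA c x y e u v := by
  unfold CoalA
  exact measurable_const.and (Measurable.forall fun n => Measurable.exists fun z =>
    measurable_const.and (((measurable_Geo x (u ++ z)).and measurable_const).and
      ((measurable_Geo y (v ++ z)).and measurable_const)))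

theorem measurable_nocoal (x y : V d) (w : List (St d)) :
    Measurable fun c : Edge d → ℝ => ∀ u v, w <+: u → ¬ Coal c x y u v :=
  Measurable.forall fun u => Measurable.forall fun v => measurable_const.imp
    (measurable_Coal x y u v).not

theorem measurableSet_Ew (x y : V d) (w : List (St d)) :
    MeasurableSet {c : Edge d → ℝ | Ew x y w c} := by
  refine measurableSet_setOfPred.2 ?_
  unfold Ew
  exact (measurable_Liv x w).and (measurable_nocoal x y w)

theorem measurableSet_Aw (x y : V d) (w : List (St d)) (θ η : ℝ) (m n : ℕ) (H₀ H : ℝ)
    (p : V d) (s : St d) : MeasurableSet {c : Edge d → ℝ | Aw x y w θ η m n H₀ H p s c} := by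
  refine measurableSet_setOfPred.2 ?_
  unfold Aw
  exact (mle measurable_const (measurable_pi_apply (ed p s))).and
    ((measurable_nocoal x y w).and (Measurable.exists fun u => measurable_const.and
      (measurable_const.and (measurable_const.and
        ((mlt (measurable_be x y p) (measurable_be x y _)).and
          ((mle (measurable_T_cfg x p) measurable_const).and
            ((mlt (((measurable_T_cfg x y).const_mul 2).add measurable_const)
              (measurable_T_cfg x p)).and (Measurable.forall fun l => Measurable.exists fun z =>
                measurable_const.and ((measurable_Geo x _).and
                  (mle ((measurable_be x y p).sub (measurable_be x y _))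
                    measurable_const))))))))))

theorem measurableSet_Gw (x y : V d) (w : List (St d)) (m n : ℕ) (H₀ H : ℝ)
    (p : V d) (s : St d) : MeasurableSet {c : Edge d → ℝ | Gw x y w m n H₀ H p s c} := by
  refine measurableSet_setOfPred.2 ?_
  unfold Gw
  exact (Measurable.forall fun u => Measurable.forall fun v => measurable_const.imp
    (measurable_CoalA x y (ed p s) u v).not).and
    (Measurable.exists fun u => Measurable.exists fun v => measurable_const.and
      (measurable_const.and (measurable_const.and (measurable_const.and
        ((mlt (measurable_be x y p) (measurable_be x y _)).and
          ((mle (measurable_T_cfg x p) measurable_const).and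
            ((mlt (((measurable_T_cfg x y).const_mul 2).add measurable_const)
              (measurable_T_cfg x p)).and (Measurable.forall fun l => Measurable.exists fun z =>
                measurable_const.and ((measurable_Geo x _).and (measurable_Geo y _))))))))))

end Pool.Agent.Helper27.PG
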