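import Pool.Agent.Helper27.PG.Flip
import Pool.Agent.Helper27.PG.Disj
import Pool.Agent.Helper27.PG.Meas
import Pool.Agent.Helper27.PG.Ev
import Pool.Agent.Helper41.JT.Slice

/-!
# The join theorem for all laws: the bad event is null
-/

set_option autoImplicit false

namespace Pool.Agent.Helper27.PG

open Pool.Agent.Helper79.GR Pool.Agent.Helper41.JT MeasureTheory ProbabilityTheory
open scoped ENNReal

open Classical in
/-- events which occur for half of the indices on `B` -/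
theorem exists_freq {α : Type*} [MeasurableSpace α] (μ : Measure α) [IsProbabilityMeasure μ]
    (Z : ℕ → Set α) (hZ : ∀ n, MeasurableSet (Z n)) (B : Set α) (hB : MeasurableSet B)
    (hBp : 0 < μ.real B)
    (h : ∀ c ∈ B, ∃ n₁ : ℕ, ∀ N : ℕ,
      N ≤ 2 * ((Finset.range N).filter (fun n => c ∈ Z n)).card + n₁) (n₀ : ℕ) :
    ∃ n > n₀, μ.real B / 8 ≤ μ.real (Z n) := by
  set f : ℕ → α → ℝ := fun N c => ∑ n ∈ Finset.range N, (Z n).indicator (fun _ => (1 : ℝ)) c
    with hf
  have hfc : ∀ N c, f N c = (((Finset.range N).filter (fun n => c ∈ Z n)).card : ℝ) := by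
    intro N c
    simp only [hf]
    rw [Finset.card_filter, Nat.cast_sum]
    refine Finset.sum_congr rfl fun n _ => ?_
    by_cases hc : c ∈ Z n
    · simp [hc]
    · simp [hc]
  have hfm : ∀ N, Measurable (f N) := fun N =>
    Finset.measurable_sum _ fun n _ => measurable_const.indicator (hZ n)
  have hfi : ∀ N, ∫ c, f N c ∂μ = ∑ n ∈ Finset.range N, μ.real (Z n) := by
    intro N
    simp only [hf]
    rw [integral_finsetSum _ fun n _ => (integrable_const (1 : ℝ)).indicator (hZ n)]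
    refine Finset.sum_congr rfl fun n _ => ?_
    rw [integral_indicator_const _ (hZ n)]
    simp
  have hfint : ∀ N, Integrable (f N) μ := fun N =>
    integrable_finsetSum _ fun n _ => (integrable_const (1 : ℝ)).indicator (hZ n)
  set Bj : ℕ → Set α := fun j => B ∩ ⋂ N : ℕ, {c | (N : ℝ) ≤ 2 * f N c + j} with hBj
  have hBjm : ∀ j, MeasurableSet (Bj j) := fun j => hB.inter (MeasurableSet.iInter fun N =>
    measurableSet_le measurable_const (((hfm N).const_mul 2).add measurable_const))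
  have hBmono : Monotone Bj := by
    intro i j hij c hc
    refine ⟨hc.1, Set.mem_iInter.2 fun N => ?_⟩
    have h1 : (N : ℝ) ≤ 2 * f N c + i := Set.mem_iInter.1 hc.2 N
    have h2 : (i : ℝ) ≤ j := by exact_mod_cast hij
    show (N : ℝ) ≤ 2 * f N c + j
    linarith
  have hBU : ⋃ j, Bj j = B := by
    apply Set.Subset.antisymm
    · exact Set.iUnion_subset fun j => Set.inter_subset_left
    · intro c hc
      obtain ⟨n₁, hn₁⟩ := h c hc
      refine Set.mem_iUnion.2 ⟨n₁, hc, Set.mem_iInter.2 fun N => ?_⟩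
      show (N : ℝ) ≤ 2 * f N c + n₁
      rw [hfc]
      exact_mod_cast hn₁ N
  have hlim : Filter.Tendsto (fun j => μ.real (Bj j)) Filter.atTop (nhds (μ.real B)) := by
    have h1 := tendsto_measure_iUnion_atTop (μ := μ) hBmono
    rw [hBU] at h1
    exact (ENNReal.tendsto_toReal (measure_ne_top μ B)).comp h1
  obtain ⟨j, hj⟩ := ((hlim.eventually (lt_mem_nhds
    (show μ.real B / 2 < μ.real B by linarith)))).exists
  by_contra hcon
  push Not at hcon
  -- a large `N`
  obtain ⟨N, hN⟩ := exists_nat_gt ((8 * (n₀ + 1) + 2 * j * μ.real B + 8) / μ.real B)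
  rw [div_lt_iff₀ hBp] at hN
  have hup : ∫ c, f N c ∂μ ≤ (n₀ + 1) + N * (μ.real B / 8) := by
    rw [hfi]
    have h1 : ∀ n ∈ Finset.range N, μ.real (Z n) ≤
        (if n ≤ n₀ then 1 else 0) + μ.real B / 8 := by
      intro n _
      split_ifs with hn
      · have : μ.real (Z n) ≤ 1 := measureReal_le_one
        linarith
      · have := hcon n (not_le.1 hn)
        linarith
    refine (Finset.sum_le_sum h1).trans ?_
    rw [Finset.sum_add_distrib, Finset.sum_const, Finset.card_range, nsmul_eq_mul]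
    have h2 : ∑ n ∈ Finset.range N, (if n ≤ n₀ then (1 : ℝ) else 0) ≤ n₀ + 1 := by
      rw [← Finset.sum_filter, Finset.sum_const, nsmul_eq_mul, mul_one]
      have h3 : ((Finset.range N).filter (fun n => n ≤ n₀)).card ≤ n₀ + 1 := by
        refine (Finset.card_le_card (t := Finset.range (n₀ + 1)) ?_).trans
          (Finset.card_range _).le
        intro n hn
        rw [Finset.mem_filter] at hn
        exact Finset.mem_range.2 (Nat.lt_succ_of_le hn.2)
      exact_mod_cast h3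
    linarith
  have hlo : ((N : ℝ) - j) / 2 * μ.real (Bj j) ≤ ∫ c, f N c ∂μ := by
    have h0 : ∀ c, 0 ≤ f N c := fun c => by rw [hfc]; positivity
    calc ((N : ℝ) - j) / 2 * μ.real (Bj j)
        = ∫ c, (Bj j).indicator (fun _ => ((N : ℝ) - j) / 2) c ∂μ := by
          rw [integral_indicator_const _ (hBjm j), smul_eq_mul, mul_comm]
      _ ≤ ∫ c, f N c ∂μ := by
          refine integral_mono ((integrable_const _).indicator (hBjm j)) (hfint N) fun c => ?_
          by_cases hc : c ∈ Bj j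
          · have h1 : (N : ℝ) ≤ 2 * f N c + j := Set.mem_iInter.1 hc.2 N
            rw [Set.indicator_of_mem hc]
            linarith
          · rw [Set.indicator_of_notMem hc]
            exact h0 c
  have hj0 : (0 : ℝ) ≤ j := Nat.cast_nonneg j
  have hn0 : (0 : ℝ) ≤ n₀ := Nat.cast_nonneg n₀
  have hNj : (j : ℝ) ≤ N := by
    by_contra hc
    rw [not_le] at hc
    have : (N : ℝ) * μ.real B ≤ 2 * j * μ.real B := by
      apply mul_le_mul_of_nonneg_right _ hBp.le
      linarith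
    linarith
  have h3 : ((N : ℝ) - j) / 2 * (μ.real B / 2) ≤ ((N : ℝ) - j) / 2 * μ.real (Bj j) := by
    apply mul_le_mul_of_nonneg_left hj.le
    linarith
  nlinarith

variable {Ω : Type*} [MeasurableSpace Ω] {d : ℕ} {P : Measure Ω} {X : Edge d → Ω → ℝ}
  {ν : Measure ℝ}

/-- the slice estimate for one directed edge -/
theorem slice_Aw (h : EnvA P X ν) (x y : V d) (w : List (St d)) (θ η : ℝ) (hη : 0 ≤ η)
    (m n : ℕ) (H₀ H : ℝ) (p : V d) (s : St d) :
    ν (Set.Ioo 0 (θ - η)) *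
        P {ω | Aw x y w θ η m n H₀ H p s (cf X ω) ∧ Ok (cf X ω)} ≤
      P {ω | Gw x y w m n H₀ H p s (cf X ω)} := by
  classical
  have := h.prob
  have h1 := slice P X h.meas h.indep ν (ed p s) (h.law _) (Set.Ioo 0 (θ - η))
    ({c | Aw x y w θ η m n H₀ H p s c} ∩ {c | Ok c}) {c | Gw x y w m n H₀ H p s c}
    ((measurableSet_Aw x y w θ η m n H₀ H p s).inter measurableSet_Ok)
    (measurableSet_Gw x y w m n H₀ H p s) 1
    (fun c => by
      have : IsProbabilityMeasure ν := by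
        rw [← h.law (ed p s)]
        exact Measure.isProbabilityMeasure_map (h.meas _).aemeasurable
      exact prob_le_one)
    (fun c hc t ht => gw_of_aw hc.2 hη ht.1 ht.2 hc.1)
  rw [one_mul] at h1
  exact h1

theorem null_Ew (h : EnvA P X ν) (hok : ∀ᵐ ω ∂P, Ok (cf X ω))
    (huq : ∀ᵐ ω ∂P, Uq (cf X ω)) {θ η : ℝ} (hη : 0 < η) (hκ : 0 < ν (Set.Ioo 0 (θ - η)))
    (hhigh : ∀ᵐ ω ∂P, ∀ x : V d, ∃ n₀ : ℕ, ∀ w : List (St d), n₀ ≤ w.length →
      (eds x w).Nodup → 2 * (eds x w).countP (fun e => decide (cf X ω e < θ)) ≤ w.length)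
    (x y : V d) (w : List (St d)) : P {ω | Ew x y w (cf X ω)} = 0 := by
  classical
  have hP := h.prob
  have hcf : Measurable (cf X) := measurable_pi_iff.2 fun e => h.meas e
  -- a measurable set of full measure of good points
  have hgood : ∀ᵐ ω ∂P, Ok (cf X ω) ∧ Uq (cf X ω) ∧ ∃ n₀ : ℕ, ∀ w : List (St d),
      n₀ ≤ w.length → (eds x w).Nodup →
      2 * (eds x w).countP (fun e => decide (cf X ω e < θ)) ≤ w.length := by
    filter_upwards [hok, huq, hhigh] with ω h1 h2 h3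
    exact ⟨h1, h2, h3 x⟩
  obtain ⟨D, hDsub, hDm, hD0⟩ := exists_measurable_superset_of_null (ae_iff.1 hgood)
  have hDg : ∀ ω ∉ D, Ok (cf X ω) ∧ Uq (cf X ω) ∧ ∃ n₀ : ℕ, ∀ w : List (St d),
      n₀ ≤ w.length → (eds x w).Nodup →
      2 * (eds x w).countP (fun e => decide (cf X ω e < θ)) ≤ w.length := by
    intro ω hω
    by_contra hcon
    exact hω (hDsub hcon)
  by_contra hne
  set B : Set Ω := {ω | Ew x y w (cf X ω)} \ D with hB
  have hBm : MeasurableSet B := (hcf (measurableSet_Ew x y w)).diff hDm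
  have hBne : P B ≠ 0 := by
    rw [hB, measure_sdiff_null hD0]
    exact hne
  have hBpos : 0 < P.real B := ENNReal.toReal_pos hBne (measure_ne_top P B)
  -- the sets for one pair of levels
  set ZZ : ℕ → ℝ → ℕ → ℝ → Set Ω := fun m H₀ n H =>
    {ω | ∃ (p : V d) (s : St d), Aw x y w θ η m n H₀ H p s (cf X ω)} \ D with hZZ
  have hZZm : ∀ m H₀ n H, MeasurableSet (ZZ m H₀ n H) := by
    intro m H₀ n H
    refine MeasurableSet.diff ?_ hDm
    have e : {ω | ∃ (p : V d) (s : St d), Aw x y w θ η m n H₀ H p s (cf X ω)} =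
        ⋃ (p : V d), ⋃ (s : St d), cf X ⁻¹' {c | Aw x y w θ η m n H₀ H p s c} := by
      ext ω
      simp
    rw [e]
    exact MeasurableSet.iUnion fun p => MeasurableSet.iUnion fun s =>
      hcf (measurableSet_Aw x y w θ η m n H₀ H p s)
  have hZmono : ∀ m H₀ n, Monotone fun H => ZZ m H₀ n H := by
    rintro m H₀ n H H' hHH ω ⟨⟨p, s, h1, h2, u, h3, h4, h5, h6, h7, h8⟩, hD⟩
    exact ⟨⟨p, s, h1, h2, u, h3, h4, h5, h6, h7.trans hHH, h8⟩, hD⟩
  have step : ∀ (m : ℕ) (H₀ : ℝ), ∃ n > m, ∃ H : ℝ, H₀ ≤ H ∧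
      P.real B / 16 ≤ P.real (ZZ m H₀ n H) := by
    intro m H₀
    obtain ⟨n, hn, hnB⟩ := exists_freq P (fun n => ⋃ H : ℕ, ZZ m H₀ n (H : ℝ))
      (fun n => MeasurableSet.iUnion fun H => hZZm m H₀ n H) B hBm hBpos (fun ω hω => by
        obtain ⟨g1, -, g3⟩ := hDg ω hω.2
        obtain ⟨n₁, hn₁⟩ := ev g1 hη hω.1 g3 m H₀
        refine ⟨n₁, fun N => (hn₁ N).trans (le_of_eq ?_)⟩
        congr 3
        refine Finset.filter_congr fun n _ => ?_
        constructor
        · rintro ⟨H, p, s, hA⟩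
          exact Set.mem_iUnion.2 ⟨H, ⟨p, s, hA⟩, hω.2⟩
        · intro hA
          obtain ⟨H, ⟨p, s, hA⟩, -⟩ := Set.mem_iUnion.1 hA
          exact ⟨H, p, s, hA⟩) m
    have hmon : Monotone fun H : ℕ => ZZ m H₀ n (H : ℝ) := fun H H' hHH =>
      hZmono m H₀ n (by exact_mod_cast hHH)
    have hlim : Filter.Tendsto (fun H : ℕ => P.real (ZZ m H₀ n (H : ℝ))) Filter.atTop
        (nhds (P.real (⋃ H : ℕ, ZZ m H₀ n (H : ℝ)))) :=
      (ENNReal.tendsto_toReal (measure_ne_top P _)).comp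
        (tendsto_measure_iUnion_atTop (μ := P) hmon)
    obtain ⟨H, hH1, hH2⟩ := ((hlim.eventually (lt_mem_nhds
      (show P.real B / 16 < P.real (⋃ H : ℕ, ZZ m H₀ n (H : ℝ)) by linarith))).and
      (Filter.eventually_ge_atTop ⌈H₀⌉₊)).exists
    exact ⟨n, hn, H, (Nat.le_ceil _).trans (by exact_mod_cast hH2), hH1.le⟩
  choose fn hfn fH hfH hδ using step
  set a : ℕ → ℕ × ℝ := fun k =>
    Nat.rec (motive := fun _ => ℕ × ℝ) (0, 0) (fun _ r => (fn r.1 r.2, fH r.1 r.2)) k with ha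
  have ha1 : ∀ k, a (k + 1) = (fn (a k).1 (a k).2, fH (a k).1 (a k).2) := fun k => rfl
  have hm1 : StrictMono fun k => (a k).1 := strictMono_nat_of_lt_succ fun k => by
    rw [ha1]
    exact hfn _ _
  have hm2 : Monotone fun k => (a k).2 := monotone_nat_of_le_succ fun k => by
    rw [ha1]
    exact hfH _ _
  set G : ℕ × (V d × St d) → Set Ω := fun i =>
    {ω | Gw x y w (a i.1).1 (a (i.1 + 1)).1 (a i.1).2 (a (i.1 + 1)).2 i.2.1 i.2.2 (cf X ω)} \ D
    with hG
  have hGm : ∀ i, MeasurableSet (G i) := fun i =>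
    (hcf (measurableSet_Gw x y w _ _ _ _ _ _)).diff hDm
  have hdis : Pairwise (Function.onFun Disjoint G) := by
    have key : ∀ (k l : ℕ) (q r : V d × St d), k < l → ∀ ω, ω ∈ G (k, q) → ω ∈ G (l, r) →
        False := by
      rintro k l q r hkl ω ⟨h1, hω⟩ ⟨h2, -⟩
      obtain ⟨g1, g2, -⟩ := hDg ω hω
      exact disj_lt g1 g2 (hm1.monotone hkl) (hm1 (Nat.succ_lt_succ hkl)) (hm2 hkl) h1 h2
    rintro ⟨k, q⟩ ⟨l, r⟩ hne2
    rw [Function.onFun, Set.disjoint_left]
    intro ω hω1 hω2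
    rcases lt_trichotomy k l with hkl | hkl | hkl
    · exact key k l q r hkl ω hω1 hω2
    · subst hkl
      obtain ⟨h1, hω⟩ := hω1
      obtain ⟨g1, g2, -⟩ := hDg ω hω
      obtain ⟨e1, e2⟩ := disj_eq g1 g2 h1 hω2.1
      exact hne2 (by rw [Prod.mk.injEq]; exact ⟨rfl, Prod.ext e1 e2⟩)
    · exact key l k r q hkl ω hω2 hω1
  have hsum : ∑' i, P (G i) ≤ 1 := by
    rw [← measure_iUnion hdis hGm]
    exact prob_le_one
  have hprod : ∑' i, P (G i) = ∑' k, ∑' q, P (G (k, q)) :=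
    ENNReal.tsum_prod (f := fun k q => P (G (k, q)))
  rw [hprod] at hsum
  have hlow : ∀ k, ν (Set.Ioo 0 (θ - η)) * ENNReal.ofReal (P.real B / 16) ≤
      ∑' q, P (G (k, q)) := by
    intro k
    have h1 : ENNReal.ofReal (P.real B / 16) ≤
        P (ZZ (a k).1 (a k).2 (a (k + 1)).1 (a (k + 1)).2) := by
      rw [← ofReal_measureReal]
      exact ENNReal.ofReal_le_ofReal (hδ _ _)
    have h2 : ZZ (a k).1 (a k).2 (a (k + 1)).1 (a (k + 1)).2 ⊆ ⋃ q : V d × St d,
        {ω | Aw x y w θ η (a k).1 (a (k + 1)).1 (a k).2 (a (k + 1)).2 q.1 q.2 (cf X ω) ∧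
          Ok (cf X ω)} := by
      rintro ω ⟨⟨p, s, hA⟩, hω⟩
      exact Set.mem_iUnion.2 ⟨(p, s), hA, (hDg ω hω).1⟩
    calc ν (Set.Ioo 0 (θ - η)) * ENNReal.ofReal (P.real B / 16)
        ≤ ν (Set.Ioo 0 (θ - η)) * ∑' q : V d × St d,
            P {ω | Aw x y w θ η (a k).1 (a (k + 1)).1 (a k).2 (a (k + 1)).2 q.1 q.2 (cf X ω) ∧
              Ok (cf X ω)} := by
          gcongr
          exact h1.trans ((measure_mono h2).trans (measure_iUnion_le _))
      _ = ∑' q : V d × St d, ν (Set.Ioo 0 (θ - η)) *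
            P {ω | Aw x y w θ η (a k).1 (a (k + 1)).1 (a k).2 (a (k + 1)).2 q.1 q.2 (cf X ω) ∧
              Ok (cf X ω)} := ENNReal.tsum_mul_left.symm
      _ ≤ ∑' q, P (G (k, q)) := by
          refine ENNReal.tsum_le_tsum fun q => ?_
          rw [hG, measure_sdiff_null hD0]
          exact slice_Aw h x y w θ η hη.le _ _ _ _ q.1 q.2
  have hc : ν (Set.Ioo 0 (θ - η)) * ENNReal.ofReal (P.real B / 16) ≠ 0 :=
    mul_ne_zero hκ.ne' (ENNReal.ofReal_pos.2 (by positivity)).ne'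
  have htop : ∑' _ : ℕ, ν (Set.Ioo 0 (θ - η)) * ENNReal.ofReal (P.real B / 16) = ∞ :=
    ENNReal.tsum_const_eq_top_of_ne_zero hc
  have := (ENNReal.tsum_le_tsum hlow).trans hsum
  rw [htop] at this
  exact absurd this (by simp)

end Pool.Agent.Helper27.PG
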